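import Mathlib

/-!
# Failure of the Peres cutoff conjecture for convolution walks on cycles

For every sequence of cycles `ℤ/n_kℤ` with `n_k → ∞` we construct probability measures `μ_k`
(symmetric, of full support, hence ergodic) whose walks satisfy the product condition
`T_rel / T_mix(1/2) → 0`, with `T_mix(1/2) → ∞`, but have no total variation cutoff.

The base walk is a lazy symmetric walk on `O(log n)` generators with spectral gap bounded below
(found by a Chernoff count), whose law stays far from uniform for a long time because its support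
is small; it is then perturbed by a uniform refresh with small probability.
-/

open Finset Filter Topology

namespace Pool.Agent.Results.MP_ee50b4_pr.CycleNoCutoff

variable {n : ℕ} [NeZero n]

/-- `μ` is a probability measure on `ℤ/nℤ`. -/
def IsProb (μ : ZMod n → ℝ) : Prop := (∀ x, 0 ≤ μ x) ∧ ∑ x, μ x = 1

/-- Convolution of two functions on `ℤ/nℤ`. -/
def conv (μ ν : ZMod n → ℝ) (x : ZMod n) : ℝ := ∑ y, μ y * ν (x - y)

/-- The `t`-fold convolution power `μ^{*t}`: the law at time `t` of the walk driven by `μ`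
started at `0`. -/
def law (μ : ZMod n → ℝ) : ℕ → ZMod n → ℝ
  | 0 => fun x => if x = 0 then 1 else 0
  | t + 1 => conv (law μ t) μ

/-- The uniform distribution on `ℤ/nℤ`. -/
noncomputable def unif : ZMod n → ℝ := fun _ => 1 / (n : ℝ)

/-- Total variation distance. -/
noncomputable def tv (μ ν : ZMod n → ℝ) : ℝ := (1 / 2) * ∑ x, |μ x - ν x|

/-- The support of `μ` is not contained in any coset `a + H` of a proper subgroup `H`. -/
def Ergodic (μ : ZMod n → ℝ) : Prop :=
  ∀ (H : AddSubgroup (ZMod n)) (a : ZMod n), H ≠ ⊤ → ∃ x, μ x ≠ 0 ∧ x - a ∉ H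

/-- The eigenvalue `∑ₓ μ(x) e^{2πijx/n}` of the walk. -/
noncomputable def eig (μ : ZMod n → ℝ) (j : ZMod n) : ℂ :=
  ∑ x : ZMod n, (μ x : ℂ) * Complex.exp (2 * Real.pi * Complex.I * ((j.val * x.val : ℕ) : ℂ) / n)

/-- The spectral gap `1 - max_{j ≠ 0} |μ̂(j)|`. -/
noncomputable def gap (μ : ZMod n → ℝ) : ℝ := 1 - ⨆ j : {j : ZMod n // j ≠ 0}, ‖eig μ j‖

/-- The relaxation time. -/
noncomputable def Trel (μ : ZMod n → ℝ) : ℝ := 1 / gap μ

/-- The total variation mixing time. -/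
noncomputable def Tmix (μ : ZMod n → ℝ) (ε : ℝ) : ℕ := sInf {t : ℕ | tv (law μ t) unif ≤ ε}

/-! ### Basic facts -/

lemma unif_prob : IsProb (unif : ZMod n → ℝ) := by
  constructor
  · intro x; unfold unif; positivity
  · have : (n : ℝ) ≠ 0 := Nat.cast_ne_zero.mpr (NeZero.ne n)
    simp [unif, Finset.sum_const, ZMod.card, this]

lemma sum_shift (f : ZMod n → ℝ) (y : ZMod n) : ∑ x, f (x - y) = ∑ x, f x :=
  Fintype.sum_equiv (Equiv.subRight y) _ _ (fun _ => rfl)

lemma sum_conv (μ ν : ZMod n → ℝ) : ∑ x, conv μ ν x = (∑ x, μ x) * ∑ x, ν x := by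
  unfold conv
  rw [Finset.sum_comm]
  simp_rw [← Finset.mul_sum, sum_shift]
  rw [Finset.sum_mul]

lemma conv_prob {μ ν : ZMod n → ℝ} (hμ : IsProb μ) (hν : IsProb ν) : IsProb (conv μ ν) := by
  refine ⟨fun x => Finset.sum_nonneg fun y _ => mul_nonneg (hμ.1 y) (hν.1 _), ?_⟩
  rw [sum_conv, hμ.2, hν.2, one_mul]

lemma law_prob {μ : ZMod n → ℝ} (hμ : IsProb μ) (t : ℕ) : IsProb (law μ t) := by
  induction t with
  | zero =>
    refine ⟨fun x => ?_, ?_⟩
    · simp only [law]; split_ifs <;> norm_num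
    · simp [law]
  | succ t ih => exact conv_prob ih hμ

lemma conv_unif {μ : ZMod n → ℝ} (hμ : ∑ x, μ x = 1) : conv μ unif = unif := by
  funext x
  simp only [conv, unif]
  rw [← Finset.sum_mul, hμ, one_mul]

lemma unif_conv {μ : ZMod n → ℝ} (hμ : ∑ x, μ x = 1) : conv unif μ = unif := by
  funext x
  simp only [conv, unif]
  rw [← Finset.mul_sum]
  have : ∑ y, μ (x - y) = ∑ y, μ y := Fintype.sum_equiv (Equiv.subLeft x) _ _ (fun _ => rfl)
  rw [this, hμ, mul_one]

/-- Laws of the refreshed walk. -/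
lemma law_mix {μ₀ : ZMod n → ℝ} (h₀ : IsProb μ₀) (a : ℝ) (t : ℕ) :
    law (fun x => (1 - a) * μ₀ x + a * unif x) t =
      fun x => (1 - a) ^ t * law μ₀ t x + (1 - (1 - a) ^ t) * unif x := by
  induction t with
  | zero => funext x; simp [law]
  | succ t ih =>
    funext x
    simp only [law]
    rw [ih]
    have e1 : conv (law μ₀ t) μ₀ x = ∑ y, law μ₀ t y * μ₀ (x - y) := rfl
    have e2 := congrFun (conv_unif (law_prob h₀ t).2) x
    have e3 := congrFun (unif_conv h₀.2) x
    have e4 := congrFun (conv_unif (unif_prob (n := n)).2) x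
    simp only [conv] at e2 e3 e4 ⊢
    have : ∀ y, ((1 - a) ^ t * law μ₀ t y + (1 - (1 - a) ^ t) * unif y) *
        ((1 - a) * μ₀ (x - y) + a * unif (x - y)) =
        (1 - a) ^ (t + 1) * (law μ₀ t y * μ₀ (x - y)) + (1 - a) ^ t * a * (law μ₀ t y * unif (x - y))
        + (1 - (1 - a) ^ t) * (1 - a) * (unif y * μ₀ (x - y))
        + (1 - (1 - a) ^ t) * a * (unif y * unif (x - y)) := by
      intro y; ring
    rw [Finset.sum_congr rfl (fun y _ => this y)]
    simp only [Finset.sum_add_distrib, ← Finset.mul_sum]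
    rw [e2, e3, e4]
    ring

lemma tv_mix {μ₀ : ZMod n → ℝ} (h₀ : IsProb μ₀) {a : ℝ} (ha : a ≤ 1) (t : ℕ) :
    tv (law (fun x => (1 - a) * μ₀ x + a * unif x) t) unif = (1 - a) ^ t * tv (law μ₀ t) unif := by
  rw [law_mix h₀]
  unfold tv
  have h1 : (0 : ℝ) ≤ (1 - a) ^ t := pow_nonneg (by linarith) t
  have : ∀ x : ZMod n, |(1 - a) ^ t * law μ₀ t x + (1 - (1 - a) ^ t) * unif x - unif x| =
      (1 - a) ^ t * |law μ₀ t x - unif x| := by
    intro x
    rw [← abs_of_nonneg h1, ← abs_mul]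
    congr 1
    rw [abs_of_nonneg h1]; ring
  rw [Finset.sum_congr rfl (fun x _ => this x), ← Finset.mul_sum]
  ring

lemma tv_le_one {μ ν : ZMod n → ℝ} (hμ : IsProb μ) (hν : IsProb ν) : tv μ ν ≤ 1 := by
  unfold tv
  have : ∑ x, |μ x - ν x| ≤ ∑ x, (μ x + ν x) := by
    refine Finset.sum_le_sum fun x _ => ?_
    rw [abs_le]; constructor <;> linarith [hμ.1 x, hν.1 x]
  rw [Finset.sum_add_distrib, hμ.2, hν.2] at this
  linarith

/-- A law supported on a small set is far from uniform. -/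
lemma tv_ge_of_support {ν : ZMod n → ℝ} (hν : IsProb ν) (A : Finset (ZMod n))
    (hA : ∀ x, x ∉ A → ν x = 0) : 1 - (A.card : ℝ) / n ≤ tv ν unif := by
  unfold tv
  have hn : (0 : ℝ) < n := Nat.cast_pos.mpr (Nat.pos_of_ne_zero (NeZero.ne n))
  rw [← Finset.sum_add_sum_compl A]
  have h1 : ∑ x ∈ A, (ν x - unif x) ≤ ∑ x ∈ A, |ν x - unif x| :=
    Finset.sum_le_sum fun x _ => le_abs_self _
  have h2 : ∑ x ∈ Aᶜ, unif x ≤ ∑ x ∈ Aᶜ, |ν x - unif x| := by
    refine Finset.sum_le_sum fun x hx => ?_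
    rw [hA x (by simpa using hx)]
    simp [unif]
  have h3 : ∑ x ∈ A, ν x = 1 := by
    rw [← hν.2]
    exact Finset.sum_subset (Finset.subset_univ A) (fun x _ hx => hA x hx)
  have h4 : ∑ x ∈ A, (unif x : ℝ) = A.card / n := by
    simp [unif, Finset.sum_const, div_eq_mul_inv]
  have h5 : ∑ x ∈ Aᶜ, (unif x : ℝ) = 1 - A.card / n := by
    have := (unif_prob (n := n)).2
    rw [← Finset.sum_add_sum_compl A, h4] at this
    linarith
  rw [Finset.sum_sub_distrib, h3, h4] at h1
  rw [h5] at h2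
  linarith

/-- Support growth. -/
lemma law_support {μ₀ : ZMod n → ℝ} (S : Finset (ZMod n)) (hS : ∀ x, x ∉ S → μ₀ x = 0) (t : ℕ) :
    ∃ A : Finset (ZMod n), A.card ≤ S.card ^ t ∧ ∀ x, x ∉ A → law μ₀ t x = 0 := by
  induction t with
  | zero =>
    refine ⟨{0}, by simp, fun x hx => ?_⟩
    simp only [Finset.mem_singleton] at hx
    simp [law, hx]
  | succ t ih =>
    obtain ⟨A, hA, hA'⟩ := ih
    classical
    refine ⟨Finset.image₂ (· + ·) A S, ?_, fun x hx => ?_⟩
    · refine (Finset.card_image₂_le _ _ _).trans ?_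
      rw [pow_succ]
      exact Nat.mul_le_mul_right _ hA
    · simp only [law, conv]
      refine Finset.sum_eq_zero fun y _ => ?_
      by_cases hy : y ∈ A
      · by_cases hz : x - y ∈ S
        · exact absurd (Finset.mem_image₂.mpr ⟨y, hy, x - y, hz, by ring⟩) hx
        · rw [hS _ hz, mul_zero]
      · rw [hA' _ hy, zero_mul]

/-! ### Fourier side -/

lemma exp_eq_char (j x : ZMod n) :
    Complex.exp (2 * Real.pi * Complex.I * ((j.val * x.val : ℕ) : ℂ) / n) =
      ZMod.stdAddChar (j * x) := by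
  have h := ZMod.stdAddChar_coe (N := n) ((j.val * x.val : ℕ) : ℤ)
  have h2 : (((j.val * x.val : ℕ) : ℤ) : ZMod n) = j * x := by
    push_cast
    simp
  rw [h2] at h
  rw [h]
  push_cast
  ring_nf

lemma eig_eq (μ : ZMod n → ℝ) (j : ZMod n) :
    eig μ j = ∑ x : ZMod n, (μ x : ℂ) * ZMod.stdAddChar (j * x) := by
  unfold eig
  exact Finset.sum_congr rfl fun x _ => by rw [exp_eq_char]

lemma sum_char {j : ZMod n} (hj : j ≠ 0) : ∑ x : ZMod n, (ZMod.stdAddChar (j * x) : ℂ) = 0 := by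
  have := AddChar.sum_mulShift j (ZMod.isPrimitive_stdAddChar n)
  simp only [hj, if_false] at this
  simpa [mul_comm] using this

lemma eig_unif {j : ZMod n} (hj : j ≠ 0) : eig (unif : ZMod n → ℝ) j = 0 := by
  rw [eig_eq]
  simp only [unif]
  rw [← Finset.mul_sum, sum_char hj, mul_zero]

lemma eig_mix (μ₀ : ZMod n → ℝ) (a : ℝ) {j : ZMod n} (hj : j ≠ 0) :
    eig (fun x => (1 - a) * μ₀ x + a * unif x) j = (1 - a) * eig μ₀ j := by
  have h := eig_unif hj
  rw [eig_eq] at h ⊢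
  rw [eig_eq]
  push_cast
  simp_rw [add_mul, mul_assoc]
  rw [Finset.sum_add_distrib, ← Finset.mul_sum, ← Finset.mul_sum, h, mul_zero, add_zero]

/-- cosine of the character -/
noncomputable def cc (j x : ZMod n) : ℝ := (ZMod.stdAddChar (j * x) : ℂ).re

lemma cc_abs (j x : ZMod n) : |cc j x| ≤ 1 := by
  unfold cc
  refine (Complex.abs_re_le_norm _).trans ?_
  rw [ZMod.stdAddChar_apply]
  simp

lemma cc_neg (j x : ZMod n) : cc j (-x) = cc j x := by
  unfold cc
  rw [mul_neg, AddChar.map_neg_eq_inv, ZMod.stdAddChar_apply]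
  rw [← Circle.coe_inv, Circle.coe_inv_eq_conj]
  simp

lemma sum_cc {j : ZMod n} (hj : j ≠ 0) : ∑ x : ZMod n, cc j x = 0 := by
  have := congrArg Complex.re (sum_char hj)
  simpa [cc] using this


/-- Chernoff moment bound. -/
lemma sum_exp_cc {j : ZMod n} (hj : j ≠ 0) :
    ∑ x : ZMod n, Real.exp ((1 / 4) * cc j x) ≤ n * Real.exp (1 / 16) := by
  have h1 : ∀ x : ZMod n, Real.exp ((1 / 4) * cc j x) ≤ 1 + (1 / 4) * cc j x + 1 / 16 := by
    intro x
    have hc := cc_abs j x
    have hle : |(1 / 4) * cc j x| ≤ 1 / 4 := by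
      rw [abs_mul, abs_of_pos (by norm_num : (0 : ℝ) < 1 / 4)]
      linarith
    have h2 := Real.abs_exp_sub_one_sub_id_le (x := (1 / 4) * cc j x) (hle.trans (by norm_num))
    have h3 := (abs_le.mp h2).2
    have h4 : ((1 / 4) * cc j x) ^ 2 ≤ 1 / 16 := by
      rw [← sq_abs]
      have := abs_nonneg ((1 / 4) * cc j x)
      nlinarith
    linarith
  calc ∑ x : ZMod n, Real.exp ((1 / 4) * cc j x)
      ≤ ∑ x : ZMod n, (1 + (1 / 4) * cc j x + 1 / 16) := Finset.sum_le_sum fun x _ => h1 x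
    _ = n * (1 + 1 / 16) := by
        rw [Finset.sum_add_distrib, Finset.sum_add_distrib, ← Finset.mul_sum, sum_cc hj]
        simp [ZMod.card]; ring
    _ ≤ n * Real.exp (1 / 16) := by
        refine mul_le_mul_of_nonneg_left ?_ (Nat.cast_nonneg n)
        have := Real.add_one_le_exp (1 / 16 : ℝ)
        linarith

/-- Existence of a small multiset all of whose nontrivial cosine sums are at most `m / 2`. -/
lemma exists_good (m : ℕ) (hm : (n : ℝ) ≤ Real.exp (m / 16)) :
    ∃ s : Fin m → ZMod n, ∀ j : ZMod n, j ≠ 0 → ∑ i, cc j (s i) ≤ m / 2 := by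
  classical
  by_contra hcon
  push Not at hcon
  -- each tuple is bad for some `j`
  have hn : (0 : ℝ) < n := Nat.cast_pos.mpr (Nat.pos_of_ne_zero (NeZero.ne n))
  have key : ∀ s : Fin m → ZMod n, (1 : ℝ) ≤
      ∑ j ∈ Finset.univ.filter (fun j : ZMod n => j ≠ 0),
        Real.exp (-(m / 8)) * ∏ i, Real.exp ((1 / 4) * cc j (s i)) := by
    intro s
    obtain ⟨j, hj, hjs⟩ := hcon s
    have h1 : (1 : ℝ) ≤ Real.exp (-(m / 8)) * ∏ i, Real.exp ((1 / 4) * cc j (s i)) := by
      rw [← Real.exp_sum, ← Real.exp_add]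
      rw [← Finset.mul_sum]
      have : 0 ≤ -((m : ℝ) / 8) + 1 / 4 * ∑ i, cc j (s i) := by linarith
      exact Real.one_le_exp this
    refine h1.trans ?_
    refine Finset.single_le_sum (f := fun j => Real.exp (-(m / 8)) * ∏ i, Real.exp ((1 / 4) * cc j (s i))) (fun i _ => ?_) ?_
    · positivity
    · simpa using hj
  have hsum : ((n : ℝ)) ^ m ≤ ∑ s : Fin m → ZMod n, ∑ j ∈ Finset.univ.filter (fun j : ZMod n => j ≠ 0),
        Real.exp (-(m / 8)) * ∏ i, Real.exp ((1 / 4) * cc j (s i)) := by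
    calc ((n : ℝ)) ^ m = ∑ s : Fin m → ZMod n, (1 : ℝ) := by
          simp [ZMod.card]
      _ ≤ _ := Finset.sum_le_sum fun s _ => key s
  rw [Finset.sum_comm] at hsum
  have hj : ∀ j ∈ Finset.univ.filter (fun j : ZMod n => j ≠ 0),
      ∑ s : Fin m → ZMod n, Real.exp (-(m / 8)) * ∏ i, Real.exp ((1 / 4) * cc j (s i)) ≤
        (n : ℝ) ^ m * Real.exp (-(m / 16)) := by
    intro j hj
    have hj' : j ≠ 0 := by simpa using hj
    rw [← Finset.mul_sum]
    have hpow : ∑ s : Fin m → ZMod n, ∏ i, Real.exp ((1 / 4) * cc j (s i)) =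
        (∑ x : ZMod n, Real.exp ((1 / 4) * cc j x)) ^ m := by
      rw [Fintype.sum_pow]
    rw [hpow]
    have h1 := sum_exp_cc hj'
    have h2 : (∑ x : ZMod n, Real.exp ((1 / 4) * cc j x)) ^ m ≤ ((n : ℝ) * Real.exp (1 / 16)) ^ m :=
      pow_le_pow_left₀ (Finset.sum_nonneg fun x _ => (Real.exp_pos _).le) h1 m
    calc Real.exp (-(m / 8)) * (∑ x : ZMod n, Real.exp ((1 / 4) * cc j x)) ^ m
        ≤ Real.exp (-(m / 8)) * ((n : ℝ) * Real.exp (1 / 16)) ^ m :=
          mul_le_mul_of_nonneg_left h2 (Real.exp_pos _).le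
      _ = (n : ℝ) ^ m * Real.exp (-(m / 16)) := by
          rw [mul_pow, ← Real.exp_nat_mul, mul_left_comm, ← Real.exp_add]
          congr 2
          ring
  have hfin := hsum.trans (Finset.sum_le_sum hj)
  rw [Finset.sum_const, nsmul_eq_mul] at hfin
  have hcard : ((Finset.univ.filter (fun j : ZMod n => j ≠ 0)).card : ℝ) = n - 1 := by
    have : (Finset.univ.filter (fun j : ZMod n => j ≠ 0)) = Finset.univ.erase 0 := by
      ext j; simp
    rw [this, Finset.card_erase_of_mem (Finset.mem_univ _), Finset.card_univ, ZMod.card]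
    have := Nat.pos_of_ne_zero (NeZero.ne n)
    push_cast [Nat.cast_sub (show 1 ≤ n from this)]
    ring
  rw [hcard] at hfin
  have hpos : (0 : ℝ) < (n : ℝ) ^ m := pow_pos hn m
  have hexp : (n : ℝ) * Real.exp (-(m / 16)) ≤ 1 := by
    rw [Real.exp_neg, ← div_eq_mul_inv, div_le_one (Real.exp_pos _)]
    exact hm
  have hepos := Real.exp_pos (-((m : ℝ) / 16))
  have : ((n : ℝ) - 1) * ((n : ℝ) ^ m * Real.exp (-(m / 16))) < (n : ℝ) ^ m := by
    have : ((n : ℝ) - 1) * Real.exp (-(m / 16)) < 1 := by nlinarith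
    nlinarith
  linarith

/-- Lazy symmetric walk on the multiset `± s i`. -/
noncomputable def base {m : ℕ} (s : Fin m → ZMod n) (x : ZMod n) : ℝ :=
  (1 / 2) * (if x = 0 then 1 else 0) +
    (1 / (4 * (m : ℝ))) * ∑ i, ((if x = s i then 1 else 0) + (if x = -(s i) then 1 else 0))

omit [NeZero n] in
lemma base_nonneg {m : ℕ} (s : Fin m → ZMod n) (x : ZMod n) : 0 ≤ base s x := by
  unfold base
  refine add_nonneg (mul_nonneg (by norm_num) (by split_ifs <;> norm_num))
    (mul_nonneg (by positivity) (Finset.sum_nonneg fun i _ => add_nonneg ?_ ?_)) <;>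
  split_ifs <;> norm_num

lemma base_prob {m : ℕ} (hm : m ≠ 0) (s : Fin m → ZMod n) : IsProb (base s) := by
  refine ⟨base_nonneg s, ?_⟩
  have hm' : (m : ℝ) ≠ 0 := Nat.cast_ne_zero.mpr hm
  unfold base
  rw [Finset.sum_add_distrib, ← Finset.mul_sum, ← Finset.mul_sum, Finset.sum_comm]
  simp only [Finset.sum_add_distrib, Finset.sum_ite_eq', Finset.mem_univ, if_true]
  simp only [Finset.sum_const, Finset.card_univ, Fintype.card_fin, nsmul_eq_mul]
  field_simp
  ring

omit [NeZero n] in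
lemma base_symm {m : ℕ} (s : Fin m → ZMod n) (x : ZMod n) : base s (-x) = base s x := by
  unfold base
  have h1 : (-x = 0) = (x = 0) := by simp
  simp only [h1]
  congr 2
  refine Finset.sum_congr rfl fun i _ => ?_
  have h2 : (-x = s i) = (x = -(s i)) := by
    apply propext; constructor
    · intro h; rw [← h]; simp
    · intro h; rw [h]; simp
  have h3 : (-x = -(s i)) = (x = s i) := by simp
  simp only [h2, h3]
  ring

lemma base_eig {m : ℕ} (s : Fin m → ZMod n) (j : ZMod n) :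
    eig (base s) j = ((1 / 2 + (1 / (2 * (m : ℝ))) * ∑ i, cc j (s i) : ℝ) : ℂ) := by
  have hb : ∀ x : ZMod n, ((base s x : ℝ) : ℂ) = (1 / 2) * (if x = 0 then (1 : ℂ) else 0) +
      (1 / (4 * (m : ℂ))) * ∑ i, ((if x = s i then (1 : ℂ) else 0) + (if x = -(s i) then 1 else 0)) := by
    intro x
    unfold base
    push_cast
    simp only [apply_ite Complex.ofReal, Complex.ofReal_one, Complex.ofReal_zero]
  rw [eig_eq]
  simp_rw [hb]
  simp only [add_mul, Finset.sum_add_distrib, mul_assoc, ← Finset.mul_sum]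
  rw [show ∑ x : ZMod n, ((if x = 0 then (1 : ℂ) else 0) * (ZMod.stdAddChar (j * x) : ℂ)) = 1 by simp]
  have h : ∀ g : Fin m → ZMod n, ∑ x : ZMod n, (∑ i, (if x = g i then (1 : ℂ) else 0)) *
      (ZMod.stdAddChar (j * x) : ℂ) = ∑ i, (ZMod.stdAddChar (j * g i) : ℂ) := by
    intro g
    simp_rw [Finset.sum_mul]
    rw [Finset.sum_comm]
    refine Finset.sum_congr rfl fun i _ => ?_
    simp only [ite_mul, one_mul, zero_mul, Finset.sum_ite_eq', Finset.mem_univ, if_true]
  rw [h s, h (fun i => -(s i))]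
  have h2 : ∀ i, (ZMod.stdAddChar (j * -(s i)) : ℂ) = (starRingEnd ℂ) (ZMod.stdAddChar (j * s i)) := by
    intro i
    rw [mul_neg, AddChar.map_neg_eq_inv, ZMod.stdAddChar_apply, ← Circle.coe_inv, Circle.coe_inv_eq_conj]
  simp_rw [h2]
  rw [← Finset.sum_add_distrib]
  simp_rw [Complex.add_conj]
  unfold cc
  push_cast
  rw [← Finset.mul_sum]
  ring

/-- The refreshed walk. -/
noncomputable def walk {m : ℕ} (s : Fin m → ZMod n) (a : ℝ) (x : ZMod n) : ℝ :=
  (1 - a) * base s x + a * unif x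

/-- Quality `q` of a walk. -/
def Good (q : ℕ) (μ : ZMod n → ℝ) : Prop :=
  IsProb μ ∧ (∀ x, μ x ≠ 0) ∧ (∀ x, μ (-x) = μ x) ∧
    (1 ≤ q → 1 / 4 ≤ gap μ ∧ q ≤ Tmix μ (1 / 2) ∧ Tmix μ (3 / 4) ≤ 2 * q ∧ 3 * q ≤ Tmix μ (1 / 4))

lemma good_zero : Good 0 (unif : ZMod n → ℝ) := by
  refine ⟨unif_prob, fun x => ?_, fun x => rfl, fun h => absurd h (by norm_num)⟩
  have : (n : ℝ) ≠ 0 := Nat.cast_ne_zero.mpr (NeZero.ne n)
  simp [unif, this]

lemma lt_Tmix {μ : ZMod n → ℝ} {ε : ℝ} (hne : ∃ t, tv (law μ t) unif ≤ ε) {T : ℕ}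
    (h : ∀ t ≤ T, ε < tv (law μ t) unif) : T < Tmix μ ε := by
  by_contra hcon
  push Not at hcon
  have hmem : tv (law μ (Tmix μ ε)) unif ≤ ε := Nat.sInf_mem (s := {t : ℕ | tv (law μ t) unif ≤ ε}) hne
  exact absurd (h _ hcon) (not_lt.mpr hmem)

lemma good_walk {m : ℕ} (hm : m ≠ 0) (s : Fin m → ZMod n) (q : ℕ) (hq : 1 ≤ q)
    (hs : ∀ j : ZMod n, j ≠ 0 → ∑ i, cc j (s i) ≤ m / 2)
    (hcard : 4 * ((2 * m + 1 : ℕ) : ℝ) ^ (3 * q) ≤ n) : Good q (walk s (1 / (6 * (q : ℝ)))) := by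
  have hq' : (1 : ℝ) ≤ q := by exact_mod_cast hq
  have hm' : (0 : ℝ) < m := by exact_mod_cast Nat.pos_of_ne_zero hm
  have hn : (0 : ℝ) < n := Nat.cast_pos.mpr (Nat.pos_of_ne_zero (NeZero.ne n))
  set a : ℝ := 1 / (6 * (q : ℝ)) with ha
  have ha0 : 0 < a := by positivity
  have ha1 : a ≤ 1 / 6 := by
    rw [ha]
    exact one_div_le_one_div_of_le (by norm_num) (by linarith)
  have haq : a * q = 1 / 6 := by rw [ha]; field_simp
  have hprob := base_prob hm s
  have hwprob : IsProb (walk s a) := by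
    refine ⟨fun x => add_nonneg (mul_nonneg (by linarith) (hprob.1 x)) (mul_nonneg ha0.le (unif_prob.1 x)), ?_⟩
    unfold walk
    rw [Finset.sum_add_distrib, ← Finset.mul_sum, ← Finset.mul_sum, hprob.2, unif_prob.2]
    ring
  have htv : ∀ t, tv (law (walk s a) t) unif = (1 - a) ^ t * tv (law (base s) t) unif :=
    fun t => tv_mix hprob (by linarith) t
  have htv_le : ∀ t, tv (law (walk s a) t) unif ≤ (1 - a) ^ t := by
    intro t
    rw [htv]
    exact mul_le_of_le_one_right (pow_nonneg (by linarith) t) (tv_le_one (law_prob hprob t) unif_prob)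
  -- lower bound for the base walk
  have hbase : ∀ t ≤ 3 * q, 3 / 4 ≤ tv (law (base s) t) unif := by
    intro t ht
    classical
    set S : Finset (ZMod n) := insert 0 (Finset.univ.image s ∪ Finset.univ.image (fun i => -(s i)))
    have hScard : S.card ≤ 2 * m + 1 := by
      refine (Finset.card_insert_le _ _).trans ?_
      have h1 : (Finset.univ.image s ∪ Finset.univ.image (fun i => -(s i))).card ≤ m + m := by
        refine (Finset.card_union_le _ _).trans (Nat.add_le_add ?_ ?_)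
        · exact Finset.card_image_le.trans (by simp)
        · exact Finset.card_image_le.trans (by simp)
      omega
    have hSsup : ∀ x, x ∉ S → base s x = 0 := by
      intro x hx
      simp only [S, Finset.mem_insert, Finset.mem_union, Finset.mem_image, Finset.mem_univ, true_and,
        not_or, not_exists] at hx
      unfold base
      rw [if_neg hx.1]
      have : ∀ i, ((if x = s i then (1 : ℝ) else 0) + (if x = -(s i) then 1 else 0)) = 0 := by
        intro i
        rw [if_neg (fun h => hx.2.1 i h.symm), if_neg (fun h => hx.2.2 i h.symm)]; norm_num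
      simp [this]
    obtain ⟨A, hA, hA'⟩ := law_support S hSsup t
    have h1 := tv_ge_of_support (law_prob hprob t) A hA'
    have h2 : (A.card : ℝ) ≤ ((2 * m + 1 : ℕ) : ℝ) ^ (3 * q) := by
      calc (A.card : ℝ) ≤ ((S.card ^ t : ℕ) : ℝ) := by exact_mod_cast hA
        _ ≤ (((2 * m + 1) ^ (3 * q) : ℕ) : ℝ) := by
            have : S.card ^ t ≤ (2 * m + 1) ^ (3 * q) :=
              (Nat.pow_le_pow_left hScard t).trans (Nat.pow_le_pow_right (by omega) ht)
            exact_mod_cast this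
        _ = _ := by push_cast; ring
    have h3 : (A.card : ℝ) / n ≤ 1 / 4 := by
      rw [div_le_iff₀ hn]; linarith
    linarith
  have hne : ∀ ε : ℝ, 0 < ε → ∃ t, tv (law (walk s a) t) unif ≤ ε := by
    intro ε hε
    obtain ⟨t, ht⟩ := exists_pow_lt_of_lt_one hε (show 1 - a < 1 by linarith)
    exact ⟨t, (htv_le t).trans ht.le⟩
  have hbern : ∀ t : ℕ, 1 - t * a ≤ (1 - a) ^ t := by
    intro t
    have := one_add_mul_le_pow (show (-2 : ℝ) ≤ -a by linarith) t
    calc 1 - t * a = 1 + t * (-a) := by ring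
      _ ≤ (1 + -a) ^ t := this
      _ = (1 - a) ^ t := by ring
  refine ⟨hwprob, fun x => ?_, fun x => ?_, fun _ => ⟨?_, ?_, ?_, ?_⟩⟩
  · have h1 : 0 ≤ (1 - a) * base s x := mul_nonneg (by linarith) (hprob.1 x)
    have h2 : 0 < a * unif x := mul_pos ha0 (by unfold unif; positivity)
    unfold walk
    linarith
  · unfold walk
    rw [base_symm]
    rfl
  · -- gap
    unfold gap
    have : ⨆ j : {j : ZMod n // j ≠ 0}, ‖eig (walk s a) j‖ ≤ 3 / 4 := by
      refine Real.iSup_le (fun j => ?_) (by norm_num)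
      have h1 : eig (walk s a) j = (1 - a) * eig (base s) j := eig_mix (base s) a j.2
      rw [h1, base_eig, norm_mul]
      have h2 : ‖(1 - (a : ℂ))‖ ≤ 1 := by
        rw [show (1 - (a : ℂ)) = ((1 - a : ℝ) : ℂ) by push_cast; ring, Complex.norm_real, Real.norm_eq_abs,
          abs_of_nonneg (by linarith)]
        linarith
      have h3 : ‖((1 / 2 + (1 / (2 * (m : ℝ))) * ∑ i, cc (j : ZMod n) (s i) : ℝ) : ℂ)‖ ≤ 3 / 4 := by
        rw [Complex.norm_real, Real.norm_eq_abs]
        have hlow : -(m : ℝ) ≤ ∑ i, cc (j : ZMod n) (s i) := by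
          have : ∑ i : Fin m, (-1 : ℝ) ≤ ∑ i, cc (j : ZMod n) (s i) :=
            Finset.sum_le_sum fun i _ => (abs_le.mp (cc_abs _ _)).1
          simpa using this
        have hup := hs j j.2
        have e1 : (1 / (2 * (m : ℝ))) * ∑ i, cc (j : ZMod n) (s i) ≤ 1 / 4 := by
          rw [div_mul_eq_mul_div, one_mul, div_le_iff₀ (by positivity)]
          linarith
        have e2 : -(1 / 2) ≤ (1 / (2 * (m : ℝ))) * ∑ i, cc (j : ZMod n) (s i) := by
          rw [div_mul_eq_mul_div, one_mul, le_div_iff₀ (by positivity)]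
          linarith
        rw [abs_le]; constructor <;> linarith
      calc _ ≤ 1 * (3 / 4 : ℝ) := mul_le_mul h2 h3 (norm_nonneg _) (by norm_num)
        _ = 3 / 4 := by norm_num
    linarith
  · -- Tmix (1/2)
    refine (lt_Tmix (hne _ (by norm_num)) (T := q) fun t ht => ?_).le
    rw [htv]
    have h1 := hbase t (by omega)
    have h2 := hbern t
    have h3 : (t : ℝ) * a ≤ 1 / 6 := by
      have : (t : ℝ) ≤ q := by exact_mod_cast ht
      nlinarith
    have h4 : 5 / 6 ≤ (1 - a) ^ t := by linarith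
    nlinarith
  · -- Tmix (3/4)
    refine Nat.sInf_le ?_
    refine (htv_le _).trans ?_
    have h1 : (1 - a) ≤ Real.exp (-a) := by
      have := Real.add_one_le_exp (-a); linarith
    calc (1 - a) ^ (2 * q) ≤ (Real.exp (-a)) ^ (2 * q) := pow_le_pow_left₀ (by linarith) h1 _
      _ = Real.exp (-(1 / 3)) := by
          rw [← Real.exp_nat_mul]
          congr 1
          push_cast
          linarith
      _ ≤ 3 / 4 := by
          rw [Real.exp_neg, inv_le_comm₀ (Real.exp_pos _) (by norm_num)]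
          have := Real.add_one_le_exp (1 / 3 : ℝ)
          norm_num at this ⊢
          linarith
  · -- Tmix (1/4)
    refine (lt_Tmix (hne _ (by norm_num)) (T := 3 * q) fun t ht => ?_).le
    rw [htv]
    have h1 := hbase t ht
    have h2 := hbern t
    have h3 : (t : ℝ) * a ≤ 1 / 2 := by
      have : (t : ℝ) ≤ 3 * q := by exact_mod_cast ht
      nlinarith
    have h4 : 1 / 2 ≤ (1 - a) ^ t := by linarith
    nlinarith

/-! ### Assembly -/

lemma growth (q : ℕ) :
    ∀ᶠ N : ℕ in atTop, 4 * ((2 * ⌈16 * Real.log N⌉₊ + 1 : ℕ) : ℝ) ^ (3 * q) ≤ N := by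
  have h1 := (Real.isLittleO_pow_log_id_atTop (n := 3 * q)).comp_tendsto tendsto_natCast_atTop_atTop
  have h2 := h1.bound (show (0 : ℝ) < 1 / (4 * 35 ^ (3 * q)) by positivity)
  have h3 : ∀ᶠ N : ℕ in atTop, (1 : ℝ) ≤ Real.log N :=
    (Real.tendsto_log_atTop.comp tendsto_natCast_atTop_atTop).eventually_ge_atTop 1
  filter_upwards [h2, h3] with N h2 h3
  simp only [Function.comp, id, Real.norm_eq_abs] at h2
  have hl0 : 0 ≤ Real.log N := by linarith
  have hN : (0 : ℝ) ≤ (N : ℝ) := Nat.cast_nonneg N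
  rw [abs_of_nonneg (pow_nonneg hl0 _), abs_of_nonneg hN] at h2
  have hceil : (⌈16 * Real.log N⌉₊ : ℝ) ≤ 16 * Real.log N + 1 :=
    (Nat.ceil_lt_add_one (by linarith)).le
  have h4 : ((2 * ⌈16 * Real.log N⌉₊ + 1 : ℕ) : ℝ) ≤ 35 * Real.log N := by
    push_cast; linarith
  calc 4 * ((2 * ⌈16 * Real.log N⌉₊ + 1 : ℕ) : ℝ) ^ (3 * q)
      ≤ 4 * (35 * Real.log N) ^ (3 * q) := by
        refine mul_le_mul_of_nonneg_left (pow_le_pow_left₀ (Nat.cast_nonneg _) h4 _) (by norm_num)
    _ = (4 * 35 ^ (3 * q)) * Real.log N ^ (3 * q) := by rw [mul_pow]; ring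
    _ ≤ (4 * 35 ^ (3 * q)) * (1 / (4 * 35 ^ (3 * q)) * N) :=
        mul_le_mul_of_nonneg_left h2 (by positivity)
    _ = N := by field_simp

lemma exists_good_walk (q : ℕ) :
    ∀ᶠ N : ℕ in atTop, ∀ [NeZero N], ∃ μ : ZMod N → ℝ, Good q μ := by
  rcases Nat.eq_zero_or_pos q with rfl | hq
  · exact Filter.Eventually.of_forall fun N _ => ⟨unif, good_zero⟩
  · filter_upwards [growth q, Filter.eventually_ge_atTop 2] with N hN hN2 hne
    set m := ⌈16 * Real.log N⌉₊ with hmdef
    have hN0 : (0 : ℝ) < N := by exact_mod_cast (by omega : 0 < N)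
    have hlog : 0 < Real.log N := Real.log_pos (by exact_mod_cast (by omega : 1 < N))
    have hm : m ≠ 0 := by
      have : 0 < m := Nat.ceil_pos.mpr (by linarith)
      omega
    have hexp : (N : ℝ) ≤ Real.exp (m / 16) := by
      have h1 : 16 * Real.log N ≤ m := Nat.le_ceil _
      calc (N : ℝ) = Real.exp (Real.log N) := (Real.exp_log hN0).symm
        _ ≤ Real.exp (m / 16) := Real.exp_le_exp.mpr (by linarith)
    obtain ⟨s, hs⟩ := exists_good (n := N) m hexp
    exact ⟨_, good_walk hm s q hq hs hN⟩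

/-- The product condition `T_rel / T_mix(1/2) → 0`. -/
def ProductCondition (n : ℕ → ℕ) [∀ k, NeZero (n k)] (μ : ∀ k, ZMod (n k) → ℝ) : Prop :=
  Tendsto (fun k => Trel (μ k) / (Tmix (μ k) (1 / 2) : ℝ)) atTop (𝓝 0)

/-- Total variation cutoff: `T_mix(ε) / T_mix(1-ε) → 1` for every fixed `ε ∈ (0,1/2)`. -/
def HasCutoff (n : ℕ → ℕ) [∀ k, NeZero (n k)] (μ : ∀ k, ZMod (n k) → ℝ) : Prop :=
  ∀ ε : ℝ, 0 < ε → ε < 1 / 2 →
    Tendsto (fun k => (Tmix (μ k) ε : ℝ) / (Tmix (μ k) (1 - ε) : ℝ)) atTop (𝓝 1)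

omit [NeZero n] in
lemma ergodic_of_full {μ : ZMod n → ℝ} (h : ∀ x, μ x ≠ 0) : Ergodic μ := by
  intro H a hH
  have : ∃ y, y ∉ H := by
    by_contra hcon
    push Not at hcon
    exact hH (eq_top_iff.mpr fun y _ => hcon y)
  obtain ⟨y, hy⟩ := this
  exact ⟨y + a, h _, by simpa using hy⟩

/-- Along every sequence of cycles `ℤ/n_kℤ` with `n_k → ∞` there are ergodic, symmetric
convolution walks for which the product condition holds but there is no cutoff. -/
theorem result (n : ℕ → ℕ) [∀ k, NeZero (n k)] (hn : Tendsto n atTop atTop) :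
    ∃ μ : ∀ k, ZMod (n k) → ℝ,
      (∀ k, IsProb (μ k) ∧ Ergodic (μ k) ∧ ∀ x, μ k (-x) = μ k x) ∧
      ProductCondition n μ ∧
      Tendsto (fun k => Tmix (μ k) (1 / 2)) atTop atTop ∧
      ¬ HasCutoff n μ := by
  classical
  let P : ℕ → ℕ → Prop := fun k q => ∃ μ : ZMod (n k) → ℝ, Good q μ
  have hP0 : ∀ k, P k 0 := fun k => ⟨unif, good_zero⟩
  let Q : ℕ → ℕ := fun k => Nat.findGreatest (P k) k
  have hQ : ∀ k, P k (Q k) := fun k => Nat.findGreatest_spec (Nat.zero_le k) (hP0 k)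
  have hQt : Tendsto Q atTop atTop := by
    rw [tendsto_atTop]
    intro q
    have h1 := hn.eventually (exists_good_walk q)
    filter_upwards [h1, Filter.eventually_ge_atTop q] with k hk hkq
    exact Nat.le_findGreatest hkq hk
  choose μ hμ using hQ
  have hT : Tendsto (fun k => Tmix (μ k) (1 / 2)) atTop atTop := by
    refine tendsto_atTop_mono' _ ?_ hQt
    filter_upwards [hQt.eventually_ge_atTop 1] with k hk
    exact ((hμ k).2.2.2 hk).2.1
  refine ⟨μ, fun k => ⟨(hμ k).1, ergodic_of_full (hμ k).2.1, (hμ k).2.2.1⟩, ?_, hT, ?_⟩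
  · -- product condition
    unfold ProductCondition
    have hup : Tendsto (fun k => 4 / (Tmix (μ k) (1 / 2) : ℝ)) atTop (𝓝 0) :=
      Tendsto.div_atTop tendsto_const_nhds (tendsto_natCast_atTop_atTop.comp hT)
    refine tendsto_of_tendsto_of_tendsto_of_le_of_le' tendsto_const_nhds hup ?_ ?_
    · filter_upwards [hQt.eventually_ge_atTop 1] with k hk
      have hg := ((hμ k).2.2.2 hk).1
      unfold Trel
      have : 0 < gap (μ k) := by linarith
      positivity
    · filter_upwards [hQt.eventually_ge_atTop 1] with k hk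
      have hg := ((hμ k).2.2.2 hk).1
      have h1 : Trel (μ k) ≤ 4 := by
        unfold Trel
        rw [div_le_iff₀ (by linarith)]
        linarith
      exact div_le_div_of_nonneg_right h1 (Nat.cast_nonneg _)
  · -- no cutoff
    intro hc
    have h1 := hc (1 / 4) (by norm_num) (by norm_num)
    have h2 : ∀ᶠ k in atTop, (Tmix (μ k) (1 / 4) : ℝ) / (Tmix (μ k) (1 - 1 / 4) : ℝ) < 3 / 2 :=
      h1.eventually_lt_const (by norm_num)
    have h2' : ∀ᶠ k in atTop, (1 / 2 : ℝ) < (Tmix (μ k) (1 / 4) : ℝ) / (Tmix (μ k) (1 - 1 / 4) : ℝ) :=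
      h1.eventually_const_lt (by norm_num)
    obtain ⟨k, hk, hk', hkQ⟩ := (h2.and (h2'.and (hQt.eventually_ge_atTop 1))).exists
    obtain ⟨-, -, h3, h4⟩ := (hμ k).2.2.2 hkQ
    have e : (1 - 1 / 4 : ℝ) = 3 / 4 := by norm_num
    rw [e] at hk hk'
    rcases Nat.eq_zero_or_pos (Tmix (μ k) (3 / 4)) with h0 | h0
    · rw [h0] at hk'
      norm_num at hk'
    · have h0' : (0 : ℝ) < (Tmix (μ k) (3 / 4) : ℝ) := by exact_mod_cast h0
      rw [div_lt_iff₀ h0'] at hk
      have h3' : (Tmix (μ k) (3 / 4) : ℝ) ≤ 2 * (Q k : ℝ) := by exact_mod_cast h3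
      have h4' : 3 * (Q k : ℝ) ≤ (Tmix (μ k) (1 / 4) : ℝ) := by exact_mod_cast h4
      linarith

end Pool.Agent.Results.MP_ee50b4_pr.CycleNoCutoff
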